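import Mathlib

namespace Pool.Agent.Results.MP_8ac0e4_co.DimThree

open Filter Finset

/-- The grid `[k]^d`, with `[k] = {1, ..., k}`. -/
def grid (k d : ℕ) : Finset (Fin d → ℕ) := Fintype.piFinset fun _ => Finset.Icc 1 k

/-- Strong vee-freeness: for every `x ∈ F` the elements of `F` strictly above `x`
form a chain. -/
def StrongVeeFree {d : ℕ} (F : Finset (Fin d → ℕ)) : Prop :=
  ∀ x ∈ F, IsChain (· ≤ ·) {y : Fin d → ℕ | y ∈ F ∧ x < y}

open Classical in
/-- The largest size of a strong vee-free subset of `[k]^d`. -/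
noncomputable def laStar (k d : ℕ) : ℕ :=
  ((grid k d).powerset.filter fun F => StrongVeeFree F).sup Finset.card

open Classical in
/-- The largest size of an antichain of `[k]^d`. -/
noncomputable def width (k d : ℕ) : ℕ :=
  ((grid k d).powerset.filter
    fun A : Finset (Fin d → ℕ) => IsAntichain (· ≤ ·) (A : Set (Fin d → ℕ))).sup Finset.card

lemma mem_grid {k d : ℕ} {x : Fin d → ℕ} : x ∈ grid k d ↔ ∀ i, 1 ≤ x i ∧ x i ≤ k := by
  simp [grid, Fintype.mem_piFinset]

lemma mem_grid3 {k : ℕ} {x : Fin 3 → ℕ} : x ∈ grid k 3 ↔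
    (1 ≤ x 0 ∧ x 0 ≤ k) ∧ (1 ≤ x 1 ∧ x 1 ≤ k) ∧ (1 ≤ x 2 ∧ x 2 ≤ k) := by
  rw [mem_grid]
  constructor
  · intro h; exact ⟨h 0, h 1, h 2⟩
  · rintro ⟨h0, h1, h2⟩ i; fin_cases i <;> assumption

lemma le3 {x y : Fin 3 → ℕ} : x ≤ y ↔ x 0 ≤ y 0 ∧ x 1 ≤ y 1 ∧ x 2 ≤ y 2 := by
  constructor
  · intro h; exact ⟨h 0, h 1, h 2⟩
  · rintro ⟨h0, h1, h2⟩ i; fin_cases i <;> assumption

lemma ext3 {x y : Fin 3 → ℕ} (h0 : x 0 = y 0) (h1 : x 1 = y 1) (h2 : x 2 = y 2) : x = y := by
  funext i; fin_cases i <;> assumption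

/-! ### The construction -/

/-- The square `[k]^2`. -/
def sq (k : ℕ) : Finset (ℕ × ℕ) := Finset.Icc 1 k ×ˢ Finset.Icc 1 k

lemma mem_sq {k : ℕ} {p : ℕ × ℕ} : p ∈ sq k ↔ (1 ≤ p.1 ∧ p.1 ≤ k) ∧ (1 ≤ p.2 ∧ p.2 ≤ k) := by
  simp [sq]

lemma card_sq (k : ℕ) : (sq k).card = k * k := by simp [sq]

/-- Pairs `(a, c)` with `c` strictly between `a` and `k + 1 - a`. -/
def wedge (k : ℕ) : Finset (ℕ × ℕ) :=
  (sq k).filter fun p => (p.1 < p.2 ∧ p.1 + p.2 < k + 1) ∨ (k + 1 < p.1 + p.2 ∧ p.2 < p.1)

lemma card_wedge (k : ℕ) : k * k ≤ 2 * (wedge k).card + 2 * k := by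
  classical
  have h1 : sq k ⊆ wedge k ∪ (wedge k).image Prod.swap ∪
      (Finset.Icc 1 k).image (fun a => (a, a)) ∪
      (Finset.Icc 1 k).image (fun a => (a, k + 1 - a)) := by
    intro p hp
    have hp' := mem_sq.1 hp
    obtain ⟨a, c⟩ := p
    simp only at hp'
    simp only [mem_union, mem_image, wedge, mem_filter, mem_sq, mem_Icc, Prod.mk.injEq,
      Prod.exists, Prod.swap_prod_mk]
    by_cases h2 : a = c
    · left; right; exact ⟨a, by omega, rfl, h2⟩
    by_cases h3 : a + c = k + 1
    · right; exact ⟨a, by omega, rfl, by omega⟩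
    left; left
    by_cases h4 : (a < c ∧ a + c < k + 1) ∨ (k + 1 < a + c ∧ c < a)
    · left; exact ⟨by omega, h4⟩
    · right; exact ⟨c, a, by omega, rfl, rfl⟩
  have h2 := card_le_card h1
  rw [card_sq] at h2
  have h3 : ((wedge k).image Prod.swap).card ≤ (wedge k).card := card_image_le
  have h4 : ((Finset.Icc 1 k).image (fun a => (a, a))).card ≤ k := by
    refine card_image_le.trans ?_; simp
  have h5 : ((Finset.Icc 1 k).image (fun a => (a, k + 1 - a))).card ≤ k := by
    refine card_image_le.trans ?_; simp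
  have h6 := card_union_le (wedge k ∪ (wedge k).image Prod.swap ∪
      (Finset.Icc 1 k).image (fun a => (a, a))) ((Finset.Icc 1 k).image (fun a => (a, k + 1 - a)))
  have h7 := card_union_le (wedge k ∪ (wedge k).image Prod.swap)
    ((Finset.Icc 1 k).image (fun a => (a, a)))
  have h8 := card_union_le (wedge k) ((wedge k).image Prod.swap)
  omega

/-- The large strong vee-free set: distinct coordinates, minimum plus maximum `= k + 1`. -/
def big (k : ℕ) : Finset (Fin 3 → ℕ) :=
  (grid k 3).filter fun x =>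
    min (x 0) (min (x 1) (x 2)) + max (x 0) (max (x 1) (x 2)) = k + 1 ∧
    x 0 ≠ x 1 ∧ x 1 ≠ x 2 ∧ x 0 ≠ x 2

lemma mid_aux {a b c a' b' c' s : ℕ}
    (h : min a (min b c) + max a (max b c) = s) (h' : min a' (min b' c') + max a' (max b' c') = s)
    (ha : a ≤ a') (hb : b ≤ b') (hc : c ≤ c') :
    ((b < a ∧ a < c) ∨ (c < a ∧ a < b) → b' = b ∧ c' = c) ∧
    ((a < b ∧ b < c) ∨ (c < b ∧ b < a) → a' = a ∧ c' = c) ∧
    ((a < c ∧ c < b) ∨ (b < c ∧ c < a) → a' = a ∧ b' = b) := by
  have h1 : min a (min b c) ≤ min a' (min b' c') := by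
    exact min_le_min ha (min_le_min hb hc)
  have h2 : max a (max b c) ≤ max a' (max b' c') := by
    exact max_le_max ha (max_le_max hb hc)
  refine ⟨?_, ?_, ?_⟩
  · rintro (⟨u, v⟩ | ⟨u, v⟩) <;> omega
  · rintro (⟨u, v⟩ | ⟨u, v⟩) <;> omega
  · rintro (⟨u, v⟩ | ⟨u, v⟩) <;> omega

lemma big_veeFree (k : ℕ) : StrongVeeFree (big k) := by
  intro x hx y hy z hz _
  simp only [big, mem_filter, Set.mem_ofPred_eq] at hx hy hz
  have hxy := le3.1 hy.2.le
  have hxz := le3.1 hz.2.le
  obtain ⟨-, hx1, hx2, hx3, hx4⟩ := hx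
  obtain ⟨⟨-, hy1, -⟩, -⟩ := hy
  obtain ⟨⟨-, hz1, -⟩, -⟩ := hz
  have Hy := mid_aux hx1 hy1 hxy.1 hxy.2.1 hxy.2.2
  have Hz := mid_aux hx1 hz1 hxz.1 hxz.2.1 hxz.2.2
  show y ≤ z ∨ z ≤ y
  rw [le3, le3]
  have ho : ((x 1 < x 0 ∧ x 0 < x 2) ∨ (x 2 < x 0 ∧ x 0 < x 1)) ∨
      ((x 0 < x 1 ∧ x 1 < x 2) ∨ (x 2 < x 1 ∧ x 1 < x 0)) ∨
      ((x 0 < x 2 ∧ x 2 < x 1) ∨ (x 1 < x 2 ∧ x 2 < x 0)) := by
    clear Hy Hz hx1 hy1 hz1
    omega
  rcases ho with h | h | h
  · have e1 := Hy.1 h
    have e2 := Hz.1 h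
    rcases le_total (y 0) (z 0) with g | g
    · left; omega
    · right; omega
  · have e1 := Hy.2.1 h
    have e2 := Hz.2.1 h
    rcases le_total (y 1) (z 1) with g | g
    · left; omega
    · right; omega
  · have e1 := Hy.2.2 h
    have e2 := Hz.2.2 h
    rcases le_total (y 2) (z 2) with g | g
    · left; omega
    · right; omega

lemma card_big (k : ℕ) : 3 * (wedge k).card ≤ (big k).card := by
  classical
  let f0 : ℕ × ℕ → (Fin 3 → ℕ) := fun p => ![p.2, p.1, k + 1 - p.1]
  let f1 : ℕ × ℕ → (Fin 3 → ℕ) := fun p => ![p.1, p.2, k + 1 - p.1]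
  let f2 : ℕ × ℕ → (Fin 3 → ℕ) := fun p => ![p.1, k + 1 - p.1, p.2]
  have i0 : Function.Injective f0 := by
    intro p q h
    have h0 := congrFun h 0
    have h1 := congrFun h 1
    simp [f0] at h0 h1
    exact Prod.ext h1 h0
  have i1 : Function.Injective f1 := by
    intro p q h
    have h0 := congrFun h 0
    have h1 := congrFun h 1
    simp [f1] at h0 h1
    exact Prod.ext h0 h1
  have i2 : Function.Injective f2 := by
    intro p q h
    have h0 := congrFun h 0
    have h1 := congrFun h 2
    simp [f2] at h0 h1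
    exact Prod.ext h0 h1
  have m0 : (wedge k).image f0 ⊆ big k := by
    intro x hx
    obtain ⟨⟨a, c⟩, hp, rfl⟩ := mem_image.1 hx
    simp only [wedge, mem_filter, mem_sq] at hp
    simp only [big, mem_filter, mem_grid3, f0, Matrix.cons_val_zero, Matrix.cons_val_one,
      Matrix.cons_val]
    omega
  have m1 : (wedge k).image f1 ⊆ big k := by
    intro x hx
    obtain ⟨⟨a, c⟩, hp, rfl⟩ := mem_image.1 hx
    simp only [wedge, mem_filter, mem_sq] at hp
    simp only [big, mem_filter, mem_grid3, f1, Matrix.cons_val_zero, Matrix.cons_val_one,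
      Matrix.cons_val]
    omega
  have m2 : (wedge k).image f2 ⊆ big k := by
    intro x hx
    obtain ⟨⟨a, c⟩, hp, rfl⟩ := mem_image.1 hx
    simp only [wedge, mem_filter, mem_sq] at hp
    simp only [big, mem_filter, mem_grid3, f2, Matrix.cons_val_zero, Matrix.cons_val_one,
      Matrix.cons_val]
    omega
  have d01 : Disjoint ((wedge k).image f0) ((wedge k).image f1) := by
    rw [disjoint_left]
    intro x hx hy
    obtain ⟨⟨a, c⟩, hp, rfl⟩ := mem_image.1 hx
    obtain ⟨⟨a', c'⟩, hq, h⟩ := mem_image.1 hy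
    simp only [wedge, mem_filter, mem_sq] at hp hq
    have h0 := congrFun h 0
    have h1 := congrFun h 1
    have h2 := congrFun h 2
    simp [f0, f1] at h0 h1 h2
    omega
  have d02 : Disjoint ((wedge k).image f0) ((wedge k).image f2) := by
    rw [disjoint_left]
    intro x hx hy
    obtain ⟨⟨a, c⟩, hp, rfl⟩ := mem_image.1 hx
    obtain ⟨⟨a', c'⟩, hq, h⟩ := mem_image.1 hy
    simp only [wedge, mem_filter, mem_sq] at hp hq
    have h0 := congrFun h 0
    have h1 := congrFun h 1
    have h2 := congrFun h 2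
    simp [f0, f2] at h0 h1 h2
    omega
  have d12 : Disjoint ((wedge k).image f1) ((wedge k).image f2) := by
    rw [disjoint_left]
    intro x hx hy
    obtain ⟨⟨a, c⟩, hp, rfl⟩ := mem_image.1 hx
    obtain ⟨⟨a', c'⟩, hq, h⟩ := mem_image.1 hy
    simp only [wedge, mem_filter, mem_sq] at hp hq
    have h0 := congrFun h 0
    have h1 := congrFun h 1
    have h2 := congrFun h 2
    simp [f1, f2] at h0 h1 h2
    omega
  have hsub : (wedge k).image f0 ∪ (wedge k).image f1 ∪ (wedge k).image f2 ⊆ big k :=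
    union_subset (union_subset m0 m1) m2
  have hc := card_le_card hsub
  rw [card_union_of_disjoint (disjoint_union_left.2 ⟨d02, d12⟩), card_union_of_disjoint d01,
    card_image_of_injective _ i0, card_image_of_injective _ i1,
    card_image_of_injective _ i2] at hc
  omega

lemma big_subset (k : ℕ) : big k ⊆ grid k 3 := filter_subset _ _

/-- Lower bound for `La*([k]^3)`. -/
lemma laStar_lower (k : ℕ) : 3 * (k * k) ≤ 2 * laStar k 3 + 6 * k := by
  classical
  have h : (big k).card ≤ laStar k 3 := by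
    unfold laStar
    apply Finset.le_sup (f := Finset.card)
    rw [mem_filter, mem_powerset]
    exact ⟨big_subset k, big_veeFree k⟩
  have h1 := card_big k
  have h2 := card_wedge k
  omega

/-! ### The upper bound for strong vee-free sets -/

/-- The elements of `F` which have no element of `F` above them on the line in
direction `i`. -/
noncomputable def top {d : ℕ} (F : Finset (Fin d → ℕ)) (i : Fin d) : Finset (Fin d → ℕ) := by
  classical
  exact F.filter fun x => ∀ y ∈ F, (∀ j, j ≠ i → y j = x j) → y i ≤ x i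

lemma card_top {k : ℕ} {F : Finset (Fin 3 → ℕ)} (hF : F ⊆ grid k 3) (i : Fin 3) :
    (top F i).card ≤ k * k := by
  classical
  rw [← card_sq]
  have key : ∀ (g : (Fin 3 → ℕ) → ℕ × ℕ), (∀ x y, g x = g y → ∀ j, j ≠ i → y j = x j) →
      (∀ x ∈ grid k 3, g x ∈ sq k) → (top F i).card ≤ (sq k).card := by
    intro g hg hm
    apply card_le_card_of_injOn g
    · intro x hx
      have : x ∈ F := by
        have h := hx
        simp only [top, Finset.coe_filter, Set.mem_ofPred_eq] at h
        exact h.1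
      exact hm x (hF this)
    · intro x hx y hy hxy
      simp only [top, Finset.coe_filter, Set.mem_ofPred_eq] at hx hy
      have e := hg x y hxy
      have h1 := hx.2 y hy.1 e
      have h2 := hy.2 x hx.1 (fun j hj => (e j hj).symm)
      funext j
      by_cases hj : j = i
      · subst hj; exact le_antisymm h2 h1
      · exact (e j hj).symm
  fin_cases i
  · apply key (fun x => (x 1, x 2))
    · intro x y h j hj
      simp only [Prod.mk.injEq] at h
      fin_cases j
      · exact absurd rfl hj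
      · exact h.1.symm
      · exact h.2.symm
    · intro x hx; have := mem_grid3.1 hx; rw [mem_sq]; exact this.2
  · apply key (fun x => (x 0, x 2))
    · intro x y h j hj
      simp only [Prod.mk.injEq] at h
      fin_cases j
      · exact h.1.symm
      · exact absurd rfl hj
      · exact h.2.symm
    · intro x hx; have := mem_grid3.1 hx; rw [mem_sq]; exact ⟨this.1, this.2.2⟩
  · apply key (fun x => (x 0, x 1))
    · intro x y h j hj
      simp only [Prod.mk.injEq] at h
      fin_cases j
      · exact h.1.symm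
      · exact h.2.symm
      · exact absurd rfl hj
    · intro x hx; have := mem_grid3.1 hx; rw [mem_sq]; exact ⟨this.1, this.2.1⟩

lemma not_two_directions {d : ℕ} {F : Finset (Fin d → ℕ)} (hF : StrongVeeFree F)
    {i j : Fin d} (hij : i ≠ j) {x : Fin d → ℕ} (hx : x ∈ F) (hi : x ∉ top F i) :
    x ∈ top F j := by
  classical
  by_contra hj
  simp only [top, mem_filter, not_and, not_forall] at hi hj
  obtain ⟨y, hy, hy1, hy2⟩ := hi hx
  obtain ⟨z, hz, hz1, hz2⟩ := hj hx
  rw [not_le] at hy2 hz2
  have hxy : x < y := by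
    rw [Pi.lt_def]
    refine ⟨fun l => ?_, i, hy2⟩
    by_cases hl : l = i
    · subst hl; exact hy2.le
    · exact (hy1 l hl).ge
  have hxz : x < z := by
    rw [Pi.lt_def]
    refine ⟨fun l => ?_, j, hz2⟩
    by_cases hl : l = j
    · subst hl; exact hz2.le
    · exact (hz1 l hl).ge
  have hyz : y ≠ z := by
    rintro rfl
    have := hz1 i hij
    omega
  rcases hF x hx (show y ∈ {y | y ∈ F ∧ x < y} from ⟨hy, hxy⟩)
    (show z ∈ {y | y ∈ F ∧ x < y} from ⟨hz, hxz⟩) hyz with h | h
  · have h1 : y i ≤ z i := h i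
    rw [hz1 i hij] at h1
    omega
  · have h1 : z j ≤ y j := h j
    rw [hy1 j hij.symm] at h1
    omega

lemma laStar_upper (k : ℕ) : 2 * laStar k 3 ≤ 3 * (k * k) := by
  classical
  have h : laStar k 3 ≤ (3 * (k * k)) / 2 := by
    unfold laStar
    apply Finset.sup_le
    intro F hF
    rw [mem_filter, mem_powerset] at hF
    obtain ⟨hF, hV⟩ := hF
    have c0 := card_top hF 0
    have c1 := card_top hF 1
    have c2 := card_top hF 2
    have s0 : top F 0 ⊆ F := by simp only [top]; exact filter_subset _ _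
    have s1 : top F 1 ⊆ F := by simp only [top]; exact filter_subset _ _
    have s2 : top F 2 ⊆ F := by simp only [top]; exact filter_subset _ _
    have d01 : Disjoint (F \ top F 0) (F \ top F 1) := by
      rw [disjoint_left]
      intro x h0 h1
      rw [Finset.mem_sdiff] at h0 h1
      exact h1.2 (not_two_directions hV (by decide) h0.1 h0.2)
    have d02 : Disjoint (F \ top F 0) (F \ top F 2) := by
      rw [disjoint_left]
      intro x h0 h1
      rw [Finset.mem_sdiff] at h0 h1
      exact h1.2 (not_two_directions hV (by decide) h0.1 h0.2)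
    have d12 : Disjoint (F \ top F 1) (F \ top F 2) := by
      rw [disjoint_left]
      intro x h0 h1
      rw [Finset.mem_sdiff] at h0 h1
      exact h1.2 (not_two_directions hV (by decide) h0.1 h0.2)
    have hsub : F \ top F 0 ∪ F \ top F 1 ∪ F \ top F 2 ⊆ F :=
      union_subset (union_subset sdiff_subset sdiff_subset) sdiff_subset
    have hc := card_le_card hsub
    rw [card_union_of_disjoint (disjoint_union_left.2 ⟨d02, d12⟩), card_union_of_disjoint d01]
      at hc
    have e0 := card_sdiff_add_card_eq_card s0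
    have e1 := card_sdiff_add_card_eq_card s1
    have e2 := card_sdiff_add_card_eq_card s2
    omega
  omega

/-! ### The largest antichain -/

lemma sum_odd_aux (m : ℕ) : ∀ h : ℕ,
    ∑ i ∈ Finset.Ico h (h + m), (2 * (h + m) - 1 - 2 * i) = m * m := by
  induction m with
  | zero => intro h; simp
  | succ m ih =>
    intro h
    rw [Finset.sum_eq_sum_Ico_succ_bot (by omega)]
    have e1 : h + (m + 1) = h + 1 + m := by omega
    rw [e1, ih (h + 1)]
    have e2 : 2 * (h + 1 + m) - 1 - 2 * h = 2 * m + 1 := by omega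
    rw [e2]
    ring

lemma sum_odd (k h : ℕ) (hk : h ≤ k) :
    ∑ i ∈ Finset.Ico h k, (2 * k - 1 - 2 * i) = (k - h) * (k - h) := by
  obtain ⟨m, rfl⟩ := Nat.exists_eq_add_of_le hk
  rw [sum_odd_aux m h]
  have : h + m - h = m := by omega
  rw [this]

lemma width_upper (k h : ℕ) (hk : h ≤ k) : width k 3 ≤ h * k + (k - h) * (k - h) := by
  classical
  unfold width
  apply Finset.sup_le
  intro A hA
  rw [mem_filter, mem_powerset] at hA
  obtain ⟨hA, hanti⟩ := hA
  -- hook index
  let g : (Fin 3 → ℕ) → ℕ := fun p => min (p 0 - 1) (k - p 1)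
  have hg : ∀ p ∈ A, g p ∈ Finset.range k := by
    intro p hp
    have := mem_grid3.1 (hA hp)
    simp only [g, mem_range]
    omega
  rw [Finset.card_eq_sum_card_fiberwise hg]
  have hanti' : ∀ p ∈ A, ∀ q ∈ A, p ≤ q → p = q := by
    intro p hp q hq hpq
    by_contra hne
    exact hanti hp hq hne hpq
  have bound1 : ∀ i ∈ Finset.range k, (A.filter fun p => g p = i).card ≤ k := by
    intro i _
    have : (A.filter fun p => g p = i).card ≤ (Finset.Icc 1 k).card := by
      apply card_le_card_of_injOn (fun p => p 2)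
      · intro p hp
        simp only [coe_filter, Set.mem_ofPred_eq] at hp
        have := mem_grid3.1 (hA hp.1)
        simp only [coe_Icc, Set.mem_Icc]
        omega
      · intro p hp q hq hpq
        simp only [coe_filter, Set.mem_ofPred_eq, g] at hp hq
        have h1 := mem_grid3.1 (hA hp.1)
        have h2 := mem_grid3.1 (hA hq.1)
        simp only at hpq
        have : (p 0 ≤ q 0 ∧ p 1 ≤ q 1) ∨ (q 0 ≤ p 0 ∧ q 1 ≤ p 1) := by omega
        rcases this with h | h
        · exact hanti' p hp.1 q hq.1 (le3.2 ⟨h.1, h.2, hpq.le⟩)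
        · exact (hanti' q hq.1 p hp.1 (le3.2 ⟨h.1, h.2, hpq.ge⟩)).symm
    simpa using this
  have bound2 : ∀ i ∈ Finset.range k, (A.filter fun p => g p = i).card ≤ 2 * k - 1 - 2 * i := by
    intro i hi
    rw [mem_range] at hi
    have : (A.filter fun p => g p = i).card ≤ (Finset.Icc (i + 2) (2 * k - i)).card := by
      apply card_le_card_of_injOn (fun p => p 0 + p 1)
      · intro p hp
        simp only [coe_filter, Set.mem_ofPred_eq, g] at hp
        have := mem_grid3.1 (hA hp.1)
        simp only [coe_Icc, Set.mem_Icc]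
        omega
      · intro p hp q hq hpq
        simp only [coe_filter, Set.mem_ofPred_eq, g] at hp hq
        have h1 := mem_grid3.1 (hA hp.1)
        have h2 := mem_grid3.1 (hA hq.1)
        simp only at hpq
        have : p 0 = q 0 ∧ p 1 = q 1 := by omega
        rcases le_total (p 2) (q 2) with h | h
        · exact hanti' p hp.1 q hq.1 (le3.2 ⟨this.1.le, this.2.le, h⟩)
        · exact (hanti' q hq.1 p hp.1 (le3.2 ⟨this.1.ge, this.2.ge, h⟩)).symm
    rw [Nat.card_Icc] at this
    omega
  have hsplit : Finset.range k = Finset.range h ∪ Finset.Ico h k := by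
    ext i; simp only [mem_range, mem_union, mem_Ico]; omega
  have hdis : Disjoint (Finset.range h) (Finset.Ico h k) := by
    rw [disjoint_left]; intro i h1 h2; simp only [mem_range, mem_Ico] at h1 h2; omega
  rw [hsplit, sum_union hdis, ← sum_odd k h hk]
  apply Nat.add_le_add
  · calc ∑ i ∈ Finset.range h, (A.filter fun p => g p = i).card
        ≤ ∑ i ∈ Finset.range h, k := by
          apply sum_le_sum
          intro i hi
          apply bound1
          rw [mem_range] at hi ⊢
          omega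
      _ = h * k := by simp
  · apply sum_le_sum
    intro i hi
    apply bound2
    rw [mem_Ico] at hi
    rw [mem_range]
    omega

lemma card_tri (k m : ℕ) : 2 * ((sq k).filter fun p => p.1 + p.2 ≤ m).card ≤ m * m := by
  classical
  induction m with
  | zero =>
    have : ((sq k).filter fun p => p.1 + p.2 ≤ 0) = ∅ := by
      apply filter_eq_empty_iff.2
      intro p hp
      have := mem_sq.1 hp
      omega
    rw [this]; simp
  | succ m ih =>
    have hsub : ((sq k).filter fun p => p.1 + p.2 ≤ m + 1) ⊆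
        ((sq k).filter fun p => p.1 + p.2 ≤ m) ∪
          (Finset.Icc 1 m).image (fun a => (a, m + 1 - a)) := by
      intro p hp
      rw [mem_filter] at hp
      have h1 := mem_sq.1 hp.1
      rw [mem_union, mem_filter, mem_image]
      by_cases h : p.1 + p.2 ≤ m
      · left; exact ⟨hp.1, h⟩
      · right
        refine ⟨p.1, ?_, ?_⟩
        · rw [mem_Icc]; omega
        · ext
          · rfl
          · simp only; omega
    have h1 := card_le_card hsub
    have h2 := card_union_le ((sq k).filter fun p => p.1 + p.2 ≤ m)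
      ((Finset.Icc 1 m).image (fun a => (a, m + 1 - a)))
    have h3 : ((Finset.Icc 1 m).image (fun a => (a, m + 1 - a))).card ≤ m := by
      refine card_image_le.trans ?_; simp
    have h4 : (m + 1) * (m + 1) = m * m + 2 * m + 1 := by ring
    omega

lemma width_lower (k h : ℕ) (hk : h ≤ k + 2) :
    2 * (k * k) ≤ 2 * width k 3 + h * h + (k + 2 - h) * (k + 2 - h) := by
  classical
  -- the layer of coordinate sum `k + h`
  let P : Finset (ℕ × ℕ) := (sq k).filter fun p => h ≤ p.1 + p.2 ∧ p.1 + p.2 < k + h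
  let f : ℕ × ℕ → (Fin 3 → ℕ) := fun p => ![p.1, p.2, k + h - (p.1 + p.2)]
  have hinj : Function.Injective f := by
    intro p q hpq
    have h0 := congrFun hpq 0
    have h1 := congrFun hpq 1
    simp [f] at h0 h1
    exact Prod.ext h0 h1
  have hw : P.card ≤ width k 3 := by
    rw [← card_image_of_injective P hinj]
    unfold width
    apply Finset.le_sup (f := Finset.card)
    rw [mem_filter, mem_powerset]
    constructor
    · intro x hx
      obtain ⟨p, hp, rfl⟩ := mem_image.1 hx
      simp only [P, mem_filter, mem_sq] at hp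
      simp only [mem_grid3, f, Matrix.cons_val_zero, Matrix.cons_val_one, Matrix.cons_val]
      omega
    · intro x hx y hy hne hle
      simp only [coe_image, Set.mem_image, mem_coe] at hx hy
      obtain ⟨p, hp, rfl⟩ := hx
      obtain ⟨q, hq, rfl⟩ := hy
      simp only [P, mem_filter, mem_sq] at hp hq
      have hl := le3.1 hle
      simp only [f, Matrix.cons_val_zero, Matrix.cons_val_one, Matrix.cons_val] at hl
      apply hne
      have : p = q := by
        apply Prod.ext <;> omega
      rw [this]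
  have hcov : sq k ⊆ P ∪ ((sq k).filter fun p => p.1 + p.2 ≤ h) ∪
      ((sq k).filter fun p => p.1 + p.2 ≤ k + 2 - h).image
        (fun p => (k + 1 - p.1, k + 1 - p.2)) := by
    intro p hp
    have h1 := mem_sq.1 hp
    simp only [P, mem_union, mem_filter, mem_image, mem_sq]
    by_cases h2 : p.1 + p.2 < h
    · left; right; exact ⟨h1, h2.le⟩
    by_cases h3 : p.1 + p.2 < k + h
    · left; left; exact ⟨h1, by omega, h3⟩
    right
    refine ⟨(k + 1 - p.1, k + 1 - p.2), ⟨⟨⟨?_, ?_⟩, ⟨?_, ?_⟩⟩, ?_⟩, ?_⟩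
    · simp only; omega
    · simp only; omega
    · simp only; omega
    · simp only; omega
    · simp only; omega
    · ext <;> simp only <;> omega
  have c1 := card_le_card hcov
  rw [card_sq] at c1
  have c2 := card_union_le (P ∪ ((sq k).filter fun p => p.1 + p.2 ≤ h))
    (((sq k).filter fun p => p.1 + p.2 ≤ k + 2 - h).image
        (fun p => (k + 1 - p.1, k + 1 - p.2)))
  have c3 := card_union_le P ((sq k).filter fun p => p.1 + p.2 ≤ h)
  have c4 : (((sq k).filter fun p => p.1 + p.2 ≤ k + 2 - h).image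
        (fun p => (k + 1 - p.1, k + 1 - p.2))).card ≤
        ((sq k).filter fun p => p.1 + p.2 ≤ k + 2 - h).card := card_image_le
  have c5 := card_tri k h
  have c6 := card_tri k (k + 2 - h)
  omega

/-! ### Asymptotics -/

lemma tendsto_of_linear_error (u : ℕ → ℕ) (c C : ℝ)
    (h : ∀ k : ℕ, 1 ≤ k → |(u k : ℝ) - c * (k : ℝ) ^ 2| ≤ C * k) :
    Tendsto (fun k : ℕ => (u k : ℝ) / (k : ℝ) ^ 2) atTop (nhds c) := by
  rw [tendsto_iff_norm_sub_tendsto_zero]
  have h0 : Tendsto (fun k : ℕ => C / (k : ℝ)) atTop (nhds 0) :=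
    tendsto_const_div_atTop_nhds_zero_nat C
  apply squeeze_zero' (Eventually.of_forall fun _ => norm_nonneg _) _ h0
  filter_upwards [eventually_ge_atTop 1] with k hk
  have hk' : (0 : ℝ) < k := by exact_mod_cast hk
  have e : (u k : ℝ) / (k : ℝ) ^ 2 - c = ((u k : ℝ) - c * (k : ℝ) ^ 2) / (k : ℝ) ^ 2 := by
    field_simp
  rw [e, Real.norm_eq_abs, abs_div, abs_of_pos (by positivity : (0 : ℝ) < (k : ℝ) ^ 2),
    div_le_div_iff₀ (by positivity) hk']
  have := h k hk
  nlinarith [mul_le_mul_of_nonneg_right this hk'.le]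

lemma tendsto_laStar :
    Tendsto (fun k : ℕ => (laStar k 3 : ℝ) / (k : ℝ) ^ 2) atTop (nhds (3 / 2)) := by
  apply tendsto_of_linear_error _ _ 3
  intro k _
  have h1 : (3 : ℝ) * (k * k) ≤ 2 * laStar k 3 + 6 * k := by exact_mod_cast laStar_lower k
  have h2 : (2 : ℝ) * laStar k 3 ≤ 3 * (k * k) := by exact_mod_cast laStar_upper k
  rw [abs_le]
  constructor <;> nlinarith [(Nat.cast_nonneg k : (0 : ℝ) ≤ k)]

lemma tendsto_width :
    Tendsto (fun k : ℕ => (width k 3 : ℝ) / (k : ℝ) ^ 2) atTop (nhds (3 / 4)) := by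
  apply tendsto_of_linear_error _ _ 4
  intro k hk
  have hk' : (1 : ℝ) ≤ k := by exact_mod_cast hk
  obtain ⟨m, hm | hm⟩ : ∃ m, k = 2 * m ∨ k = 2 * m + 1 := ⟨k / 2, by omega⟩
  · have h1 := width_upper k m (by omega)
    have h2 := width_lower k m (by omega)
    have e1 : k - m = m := by omega
    have e2 : k + 2 - m = m + 2 := by omega
    rw [e1] at h1
    rw [e2] at h2
    subst hm
    have h1' : (width (2 * m) 3 : ℝ) ≤ m * (2 * m) + m * m := by exact_mod_cast h1
    have h2' : (2 : ℝ) * ((2 * m) * (2 * m)) ≤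
        2 * width (2 * m) 3 + m * m + (m + 2) * (m + 2) := by
      exact_mod_cast h2
    push_cast at hk' ⊢
    rw [abs_le]
    constructor <;> nlinarith
  · have h1 := width_upper k m (by omega)
    have h2 := width_lower k m (by omega)
    have e1 : k - m = m + 1 := by omega
    have e2 : k + 2 - m = m + 3 := by omega
    rw [e1] at h1
    rw [e2] at h2
    subst hm
    have h1' : (width (2 * m + 1) 3 : ℝ) ≤ m * (2 * m + 1) + (m + 1) * (m + 1) := by
      exact_mod_cast h1
    have h2' : (2 : ℝ) * ((2 * m + 1) * (2 * m + 1)) ≤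
        2 * width (2 * m + 1) 3 + m * m + (m + 3) * (m + 3) := by
      exact_mod_cast h2
    have hm0 : (0 : ℝ) ≤ m := Nat.cast_nonneg m
    push_cast at hk' ⊢
    rw [abs_le]
    constructor <;> nlinarith

/-- `La*([k]^3, vee) / w_{k,3} → 2`; so it is false that for every `d ≥ 3` the ratio
`La*([k]^d, vee) / w_{k,d}` tends to `1 + 1/d`. -/
theorem result :
    Tendsto (fun k : ℕ => (laStar k 3 : ℝ) / (width k 3 : ℝ)) atTop (nhds 2) ∧
    ¬ ∀ d : ℕ, 3 ≤ d →
      Tendsto (fun k : ℕ => (laStar k d : ℝ) / (width k d : ℝ)) atTop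
        (nhds (1 + 1 / (d : ℝ))) := by
  have main : Tendsto (fun k : ℕ => (laStar k 3 : ℝ) / (width k 3 : ℝ)) atTop (nhds 2) := by
    have h := tendsto_laStar.div tendsto_width (by norm_num)
    have e : (3 / 2 : ℝ) / (3 / 4) = 2 := by norm_num
    rw [e] at h
    refine h.congr' ?_
    filter_upwards [eventually_ge_atTop 1] with k hk
    have hk' : (k : ℝ) ≠ 0 := by
      have : (0 : ℝ) < k := by exact_mod_cast hk
      exact this.ne'
    simp only [Pi.div_apply]
    field_simp
  refine ⟨main, fun hall => ?_⟩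
  have h3 := hall 3 le_rfl
  have := tendsto_nhds_unique main h3
  norm_num at this

end Pool.Agent.Results.MP_8ac0e4_co.DimThree
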